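import Pool.Agent.helper63.TI.SpecA

set_option autoImplicit false

namespace Pool.Agent.TI

open Polynomial NumberField Pool.Agent.GJ Pool.Agent.TK Pool.Agent.TQ Pool.Agent.TFQ Pool.Agent.TD Pool.Agent.AQ
open Pool.Agent.FJ (VT Om chiO IsFrobO rf rs)
open scoped TensorProduct

noncomputable section

theorem EGV_prod {Ω : Type} [NormedField Ω] (x : Ω) (c : ℝ) (hc : 0 ≤ c) (s : Multiset Ω)
    (h : ∀ a ∈ s, c ≤ ‖x - a‖) : c ^ Multiset.card s ≤ ‖(s.map fun a => x - a).prod‖ := by
  induction s using Multiset.induction_on with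
  | empty => simp
  | cons a s ih =>
    rw [Multiset.map_cons, Multiset.prod_cons, norm_mul, Multiset.card_cons, pow_succ']
    exact mul_le_mul (h a (Multiset.mem_cons_self a s)) (ih fun b hb => h b (Multiset.mem_cons_of_mem hb))
      (pow_nonneg hc _) (norm_nonneg _)

/-- the determinant of `y - A` for a nearly diagonal matrix -/
theorem EGV_det {Ω : Type} [NormedField Ω] {n : ℕ} (y : Fin n → Ω) (t : Fin n) (c : ℝ) (hc : 0 < c) :
    ∃ δ : ℝ, 0 < δ ∧ ∀ A : Matrix (Fin n) (Fin n) Ω, (∀ i j, ‖A i j - (if i = j then y j else 0)‖ ≤ δ) →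
      ‖(Matrix.scalar (Fin n) (y t) - A).det‖ < c := by
  obtain ⟨F, hF⟩ : ∃ F : (Fin n → Fin n → Ω) → Ω, ∀ A, F A =
    (Matrix.scalar (Fin n) (y t) - Matrix.of A).det := ⟨_, fun _ => rfl⟩
  have hc' : Continuous F := by
    have e : F = fun A => (Matrix.scalar (Fin n) (y t) - Matrix.of A).det := funext hF
    rw [e]
    refine Continuous.matrix_det ?_
    refine continuous_const.sub ?_
    exact continuous_id
  obtain ⟨A₀, hA₀⟩ : ∃ A₀ : Fin n → Fin n → Ω, ∀ i j, A₀ i j = if i = j then y j else 0 :=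
    ⟨_, fun _ _ => rfl⟩
  have h0 : F A₀ = 0 := by
    rw [hF]
    refine Matrix.det_eq_zero_of_row_eq_zero t fun j => ?_
    rw [Matrix.sub_apply, Matrix.of_apply, hA₀, Matrix.scalar_apply, Matrix.diagonal_apply]
    by_cases h : t = j
    · rw [if_pos h, if_pos h, h, sub_self]
    · rw [if_neg h, if_neg h, sub_self]
  obtain ⟨δ, hδ, hδ'⟩ := Metric.continuous_iff.1 hc' A₀ c hc
  refine ⟨δ / 2, by positivity, fun A hA => ?_⟩
  have h1 : dist (fun i j => A i j) A₀ ≤ δ / 2 := by
    refine (dist_pi_le_iff (by positivity)).2 fun i => (dist_pi_le_iff (by positivity)).2 fun j => ?_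
    rw [dist_eq_norm, hA₀]
    exact hA i j
  have h2 := hδ' (fun i j => A i j) (h1.trans_lt (by linarith))
  rw [dist_eq_norm, h0, sub_zero, hF] at h2
  exact h2

theorem EGV : EGV_stmt := by
  intro Ω _ _ n y hy ε hε
  -- the separation of the `y`
  obtain ⟨d, hd, hsep⟩ : ∃ d : ℝ, 0 < d ∧ ∀ t t', t ≠ t' → d ≤ ‖y t - y t'‖ := by
    rcases (Finset.univ.filter fun p : Fin n × Fin n => p.1 ≠ p.2).eq_empty_or_nonempty with h | h
    · refine ⟨1, one_pos, fun t t' htt => ?_⟩
      have : (t, t') ∈ (Finset.univ.filter fun p : Fin n × Fin n => p.1 ≠ p.2) := by simpa using htt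
      rw [h] at this
      exact absurd this (Finset.notMem_empty _)
    · obtain ⟨p, hp, hmin⟩ := Finset.exists_min_image _ (fun p : Fin n × Fin n => ‖y p.1 - y p.2‖) h
      refine ⟨‖y p.1 - y p.2‖, ?_, fun t t' htt => hmin (t, t') (by simpa using htt)⟩
      have h1 : p.1 ≠ p.2 := by simpa using hp
      exact norm_pos_iff.2 (sub_ne_zero.2 fun e => h1 (hy e))
  obtain ⟨ε', hε', hε1, hε2⟩ : ∃ ε' : ℝ, 0 < ε' ∧ ε' ≤ ε ∧ 2 * ε' ≤ d :=
    ⟨min ε (d / 2), by positivity, min_le_left _ _, by linarith [min_le_right ε (d / 2)]⟩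
  choose δ hδ hdet using fun t => EGV_det y t (ε' ^ n) (by positivity)
  obtain ⟨δ₀, hδ₀, hδ₀'⟩ : ∃ δ₀ : ℝ, 0 < δ₀ ∧ ∀ t, δ₀ ≤ δ t := by
    rcases isEmpty_or_nonempty (Fin n) with h | h
    · exact ⟨1, one_pos, fun t => h.elim t⟩
    · obtain ⟨t, ht⟩ := Finite.exists_min δ
      exact ⟨δ t, hδ t, ht⟩
  refine ⟨δ₀, hδ₀, fun U _ _ v g hg => ?_⟩
  rcases isEmpty_or_nonempty (Fin n) with hn | hn
  · exact ⟨v, y, fun t => hn.elim t, fun t => hn.elim t⟩
  have : Module.Finite Ω U := Module.Finite.of_basis v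
  have : Module.Free Ω U := Module.Free.of_basis v
  have hcp : g.charpoly = (LinearMap.toMatrix v v g).charpoly := (LinearMap.charpoly_toMatrix g v).symm
  have hroot : ∀ t, ∃ a, g.charpoly.IsRoot a ∧ ‖y t - a‖ < ε' := by
    intro t
    by_contra hcon
    push Not at hcon
    have h1 : ‖(Matrix.scalar (Fin n) (y t) - LinearMap.toMatrix v v g).det‖ < ε' ^ n := by
      refine hdet t _ fun i j => ?_
      rw [LinearMap.toMatrix_apply]
      exact (hg i j).trans (hδ₀' t)
    rw [← Matrix.eval_charpoly, ← hcp] at h1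
    have hsp : g.charpoly.Splits := IsAlgClosed.splits _
    have hmon : g.charpoly.Monic := LinearMap.charpoly_monic g
    have h2 : g.charpoly = (g.charpoly.roots.map fun a => X - C a).prod := hsp.eq_prod_roots_of_monic hmon
    have h3 : g.charpoly.eval (y t) = (g.charpoly.roots.map fun a => y t - a).prod := by
      conv_lhs => rw [h2]
      rw [eval_multiset_prod, Multiset.map_map]
      congr 1
      refine Multiset.map_congr rfl fun a _ => ?_
      simp
    have h4 : Multiset.card g.charpoly.roots = n := by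
      rw [← hsp.natDegree_eq_card_roots, LinearMap.charpoly_natDegree, Module.finrank_eq_card_basis v,
        Fintype.card_fin]
    have h5 := EGV_prod (y t) ε' hε'.le g.charpoly.roots fun a ha => hcon a ((mem_roots hmon.ne_zero).1 ha)
    rw [h4, ← h3] at h5
    linarith
  choose η hη hη' using hroot
  have hinj : Function.Injective η := by
    intro t t' htt
    by_contra hne
    have h1 := hsep t t' hne
    have h2 : ‖y t - y t'‖ ≤ ‖y t - η t‖ + ‖y t' - η t'‖ := by
      have : y t - y t' = (y t - η t) - (y t' - η t') := by rw [htt]; ring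
      rw [this]
      exact norm_sub_le _ _
    have h3 := hη' t
    have h4 := hη' t'
    linarith
  have hev : ∀ t, ∃ x : U, Module.End.HasEigenvector g (η t) x := by
    intro t
    have : Module.End.HasEigenvalue g (η t) :=
      (Module.End.hasEigenvalue_iff_isRoot_charpoly g (η t)).2 (hη t)
    exact this.exists_hasEigenvector
  choose x hx using hev
  have hli : LinearIndependent Ω x := Module.End.eigenvectors_linearIndependent' g η hinj x hx
  have hcard : Fintype.card (Fin n) = Module.finrank Ω U := (Module.finrank_eq_card_basis v).symm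
  refine ⟨basisOfLinearIndependentOfCardEqFinrank hli hcard, η, fun t => ?_, fun t => ?_⟩
  · rw [coe_basisOfLinearIndependentOfCardEqFinrank]
    exact (hx t).apply_eq_smul
  · rw [norm_sub_rev]
    exact (hη' t).trans_le hε1

end

end Pool.Agent.TI
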